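import Mathlib
import Pool.Agent.KTab.FinalD

/-!
# Every 8-tabular unimodal logic is locally tabular

The syntactic form of the answer to Q1: modal formulas, normal unimodal logics, and
`k`-tabularity in terms of formulas up to `L`-equivalence.
-/

set_option autoImplicit false

namespace Pool.Agent.Results.MP_6af323_lc.EightTabular

/-- Modal formulas over the variables `p_0, p_1, p_2, ...`. -/
inductive Form : Type
  | var : ℕ → Form
  | bot : Form
  | imp : Form → Form → Form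
  | box : Form → Form

/-- Uniform substitution. -/
def Form.subst (s : ℕ → Form) : Form → Form
  | .var n => s n
  | .bot => .bot
  | .imp a b => .imp (a.subst s) (b.subst s)
  | .box a => .box (a.subst s)

/-- All variables of the formula are among `p_0, ..., p_{k-1}`. -/
def Form.Below (k : ℕ) : Form → Prop
  | .var n => n < k
  | .bot => True
  | .imp a b => a.Below k ∧ b.Below k
  | .box a => a.Below k

/-- Classical tautologies (variables and boxed formulas are treated as atoms). -/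
def Taut (φ : Form) : Prop :=
  ∀ v : Form → Prop, ¬ v .bot → (∀ a b : Form, v (.imp a b) ↔ (v a → v b)) → v φ

/-- Normal unimodal logics. -/
structure IsLogic (L : Set Form) : Prop where
  taut : ∀ φ, Taut φ → φ ∈ L
  axK : ∀ φ ψ : Form, Form.imp (.box (.imp φ ψ)) (.imp (.box φ) (.box ψ)) ∈ L
  mp : ∀ φ ψ : Form, Form.imp φ ψ ∈ L → φ ∈ L → ψ ∈ L
  subst : ∀ (s : ℕ → Form) (φ : Form), φ ∈ L → φ.subst s ∈ L
  nec : ∀ φ : Form, φ ∈ L → Form.box φ ∈ L

/-- `L`-equivalence of formulas. -/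
def LEquiv (L : Set Form) (φ ψ : Form) : Prop :=
  Form.imp φ ψ ∈ L ∧ Form.imp ψ φ ∈ L

/-- There are only finitely many formulas in `p_0, ..., p_{k-1}` up to `L`-equivalence. -/
def Tabular (L : Set Form) (k : ℕ) : Prop :=
  ∃ F : Set Form, F.Finite ∧ ∀ φ : Form, φ.Below k → ∃ ψ ∈ F, LEquiv L φ ψ

section lind

variable {L : Set Form} (hL : IsLogic L)

include hL

lemma c1 {a c : Form} (h : Taut (.imp a c)) (ha : a ∈ L) : c ∈ L :=
  hL.mp a c (hL.taut _ h) ha

lemma c2 {a b c : Form} (h : Taut (.imp a (.imp b c))) (ha : a ∈ L) (hb : b ∈ L) : c ∈ L :=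
  hL.mp b c (c1 hL h ha) hb

lemma imp_refl (a : Form) : Form.imp a a ∈ L :=
  hL.taut _ (fun v _ hi => by simp [hi])

lemma imp_trans {a b c : Form} (h1 : Form.imp a b ∈ L) (h2 : Form.imp b c ∈ L) :
    Form.imp a c ∈ L :=
  c2 hL (fun v _ hi => by simp only [hi]; tauto) h1 h2

lemma box_mono {a b : Form} (h : Form.imp a b ∈ L) : Form.imp (.box a) (.box b) ∈ L :=
  hL.mp _ _ (hL.axK a b) (hL.nec _ h)

end lind

/-- The Lindenbaum setoid. -/
def lset (L : Set Form) (hL : IsLogic L) : Setoid Form where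
  r := LEquiv L
  iseqv :=
    { refl := fun a => ⟨imp_refl hL a, imp_refl hL a⟩
      symm := fun h => ⟨h.2, h.1⟩
      trans := fun h1 h2 => ⟨imp_trans hL h1.1 h2.1, imp_trans hL h2.2 h1.2⟩ }

/-- The Lindenbaum algebra. -/
def Lin (L : Set Form) (hL : IsLogic L) : Type := Quotient (lset L hL)

section alg

variable (L : Set Form) (hL : IsLogic L)

/-- The class of a formula. -/
def cl (φ : Form) : Lin L hL := Quotient.mk (lset L hL) φ

variable {L hL}

lemma cl_eq {φ ψ : Form} : cl L hL φ = cl L hL ψ ↔ LEquiv L φ ψ :=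
  ⟨fun h => Quotient.exact h, fun h => Quotient.sound h⟩

lemma cl_surj (x : Lin L hL) : ∃ φ, cl L hL φ = x := Quotient.exists_rep x

/-- negation -/
def ng (a : Form) : Form := .imp a .bot
/-- conjunction -/
def cj (a b : Form) : Form := ng (.imp a (ng b))
/-- disjunction -/
def dj (a b : Form) : Form := .imp (ng a) b

instance : LE (Lin L hL) where
  le := Quotient.lift₂ (fun a b => Form.imp a b ∈ L) (by
    intro a b a' b' h1 h2
    exact propext ⟨fun h => imp_trans hL h1.2 (imp_trans hL h h2.1),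
      fun h => imp_trans hL h1.1 (imp_trans hL h h2.2)⟩)

lemma cl_le {φ ψ : Form} : cl L hL φ ≤ cl L hL ψ ↔ Form.imp φ ψ ∈ L := Iff.rfl

/-- complement -/
def lcompl : Lin L hL → Lin L hL :=
  Quotient.map' (s₁ := lset L hL) (s₂ := lset L hL) ng (by
    intro a b h
    exact ⟨c1 hL (fun v _ hi => by simp only [ng, hi]; tauto) h.2,
      c1 hL (fun v _ hi => by simp only [ng, hi]; tauto) h.1⟩)

/-- meet -/
def linf : Lin L hL → Lin L hL → Lin L hL :=
  Quotient.map₂ (sa := lset L hL) (sb := lset L hL) (sc := lset L hL) cj (by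
    intro a b h a' b' h'
    exact ⟨c2 hL (fun v _ hi => by simp only [cj, ng, hi]; tauto) h.1 h'.1,
      c2 hL (fun v _ hi => by simp only [cj, ng, hi]; tauto) h.2 h'.2⟩)

/-- join -/
def lsup : Lin L hL → Lin L hL → Lin L hL :=
  Quotient.map₂ (sa := lset L hL) (sb := lset L hL) (sc := lset L hL) dj (by
    intro a b h a' b' h'
    exact ⟨c2 hL (fun v _ hi => by simp only [dj, ng, hi]; tauto) h.1 h'.1,
      c2 hL (fun v _ hi => by simp only [dj, ng, hi]; tauto) h.2 h'.2⟩)

/-- box -/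
def lbox : Lin L hL → Lin L hL :=
  Quotient.map' (s₁ := lset L hL) (s₂ := lset L hL) .box (by
    intro a b h
    exact ⟨box_mono hL h.1, box_mono hL h.2⟩)

lemma lcompl_cl (a : Form) : lcompl (cl L hL a) = cl L hL (ng a) := rfl
lemma linf_cl (a b : Form) : linf (cl L hL a) (cl L hL b) = cl L hL (cj a b) := rfl
lemma lsup_cl (a b : Form) : lsup (cl L hL a) (cl L hL b) = cl L hL (dj a b) := rfl
lemma lbox_cl (a : Form) : lbox (cl L hL a) = cl L hL (.box a) := rfl

instance : BooleanAlgebra (Lin L hL) where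
  le := (· ≤ ·)
  le_refl x := by
    obtain ⟨a, rfl⟩ := cl_surj x
    exact cl_le.mpr (imp_refl hL a)
  le_trans x y z := by
    obtain ⟨a, rfl⟩ := cl_surj x
    obtain ⟨b, rfl⟩ := cl_surj y
    obtain ⟨c, rfl⟩ := cl_surj z
    exact fun h1 h2 => imp_trans hL h1 h2
  le_antisymm x y := by
    obtain ⟨a, rfl⟩ := cl_surj x
    obtain ⟨b, rfl⟩ := cl_surj y
    exact fun h1 h2 => cl_eq.mpr ⟨h1, h2⟩
  sup := lsup
  le_sup_left x y := by
    obtain ⟨a, rfl⟩ := cl_surj x
    obtain ⟨b, rfl⟩ := cl_surj y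
    exact cl_le.mpr (hL.taut _ (fun v _ hi => by simp only [dj, ng, hi]; tauto))
  le_sup_right x y := by
    obtain ⟨a, rfl⟩ := cl_surj x
    obtain ⟨b, rfl⟩ := cl_surj y
    exact cl_le.mpr (hL.taut _ (fun v _ hi => by simp only [dj, ng, hi]; tauto))
  sup_le x y z := by
    obtain ⟨a, rfl⟩ := cl_surj x
    obtain ⟨b, rfl⟩ := cl_surj y
    obtain ⟨c, rfl⟩ := cl_surj z
    exact fun h1 h2 => cl_le.mpr (c2 hL (fun v _ hi => by simp only [dj, ng, hi]; tauto) h1 h2)
  inf := linf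
  inf_le_left x y := by
    obtain ⟨a, rfl⟩ := cl_surj x
    obtain ⟨b, rfl⟩ := cl_surj y
    exact cl_le.mpr (hL.taut _ (fun v _ hi => by simp only [cj, ng, hi]; tauto))
  inf_le_right x y := by
    obtain ⟨a, rfl⟩ := cl_surj x
    obtain ⟨b, rfl⟩ := cl_surj y
    exact cl_le.mpr (hL.taut _ (fun v _ hi => by simp only [cj, ng, hi]; tauto))
  le_inf x y z := by
    obtain ⟨a, rfl⟩ := cl_surj x
    obtain ⟨b, rfl⟩ := cl_surj y
    obtain ⟨c, rfl⟩ := cl_surj z
    exact fun h1 h2 => cl_le.mpr (c2 hL (fun v _ hi => by simp only [cj, ng, hi]; tauto) h1 h2)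
  le_sup_inf x y z := by
    obtain ⟨a, rfl⟩ := cl_surj x
    obtain ⟨b, rfl⟩ := cl_surj y
    obtain ⟨c, rfl⟩ := cl_surj z
    exact cl_le.mpr (hL.taut _ (fun v _ hi => by simp only [dj, cj, ng, hi]; tauto))
  top := cl L hL (ng .bot)
  bot := cl L hL .bot
  compl := lcompl
  inf_compl_le_bot x := by
    obtain ⟨a, rfl⟩ := cl_surj x
    exact cl_le.mpr (hL.taut _ (fun v _ hi => by simp only [cj, ng, hi]; tauto))
  top_le_sup_compl x := by
    obtain ⟨a, rfl⟩ := cl_surj x
    exact cl_le.mpr (hL.taut _ (fun v _ hi => by simp only [dj, ng, hi]; tauto))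
  le_top x := by
    obtain ⟨a, rfl⟩ := cl_surj x
    exact cl_le.mpr (hL.taut _ (fun v _ hi => by simp only [ng, hi]; tauto))
  bot_le x := by
    obtain ⟨a, rfl⟩ := cl_surj x
    exact cl_le.mpr (hL.taut _ (fun v _ hi => by simp only [hi]; tauto))

lemma compl_cl (a : Form) : (cl L hL a)ᶜ = cl L hL (ng a) := rfl
lemma inf_cl (a b : Form) : cl L hL a ⊓ cl L hL b = cl L hL (cj a b) := rfl
lemma bot_cl : (⊥ : Lin L hL) = cl L hL .bot := rfl
lemma top_cl : (⊤ : Lin L hL) = cl L hL (ng .bot) := rfl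

lemma lbox_top : lbox (⊤ : Lin L hL) = ⊤ := by
  rw [top_cl, lbox_cl]
  refine cl_eq.mpr ⟨hL.taut _ (fun v _ hi => by simp only [ng, hi]; tauto), ?_⟩
  have h : Form.box (ng .bot) ∈ L := hL.nec _ (hL.taut _ (fun v _ hi => by simp only [ng, hi]; tauto))
  exact c1 hL (fun v _ hi => by simp only [ng, hi]; tauto) h

lemma lbox_inf (x y : Lin L hL) : lbox (x ⊓ y) = lbox x ⊓ lbox y := by
  obtain ⟨a, rfl⟩ := cl_surj x
  obtain ⟨b, rfl⟩ := cl_surj y
  rw [inf_cl, lbox_cl, lbox_cl, lbox_cl, inf_cl]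
  refine cl_eq.mpr ⟨?_, ?_⟩
  · have h1 : Form.imp (.box (cj a b)) (.box a) ∈ L :=
      box_mono hL (hL.taut _ (fun v _ hi => by simp only [cj, ng, hi]; tauto))
    have h2 : Form.imp (.box (cj a b)) (.box b) ∈ L :=
      box_mono hL (hL.taut _ (fun v _ hi => by simp only [cj, ng, hi]; tauto))
    exact c2 hL (fun v _ hi => by simp only [cj, ng, hi]; tauto) h1 h2
  · have h1 : Form.imp (.box a) (.box (.imp b (cj a b))) ∈ L :=
      box_mono hL (hL.taut _ (fun v _ hi => by simp only [cj, ng, hi]; tauto))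
    have h2 : Form.imp (.box (.imp b (cj a b))) (.imp (.box b) (.box (cj a b))) ∈ L := hL.axK _ _
    exact c2 hL (fun v _ hi => by simp only [cj, ng, hi]; tauto) h1 h2

/-- evaluation of a formula in the Lindenbaum algebra at a tuple -/
def ev (k : ℕ) (v : Fin k → Lin L hL) : Form → Lin L hL
  | .var n => if h : n < k then v ⟨n, h⟩ else ⊥
  | .bot => ⊥
  | .imp a b => (ev k v a ⊓ (ev k v b)ᶜ)ᶜ
  | .box a => lbox (ev k v a)

/-- evaluation at classes of formulas is the class of the substituted formula -/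
lemma ev_subst (k : ℕ) (s : ℕ → Form) (a : Form) (ha : a.Below k) :
    ev k (fun i : Fin k => cl L hL (s i)) a = cl L hL (a.subst s) := by
  induction a with
  | var n =>
    have h : n < k := ha
    simp [ev, h, Form.subst]
  | bot => rfl
  | imp a b iha ihb =>
    simp only [ev, Form.subst, iha ha.1, ihb ha.2, compl_cl, inf_cl]
    refine cl_eq.mpr ⟨hL.taut _ (fun v _ hi => by simp only [cj, ng, hi]; tauto),
      hL.taut _ (fun v _ hi => by simp only [cj, ng, hi]; tauto)⟩
  | box a iha => simp only [ev, Form.subst, iha ha, lbox_cl]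

lemma subst_var (a : Form) : a.subst Form.var = a := by
  induction a with
  | var n => rfl
  | bot => rfl
  | imp a b iha ihb => simp only [Form.subst, iha, ihb]
  | box a iha => simp only [Form.subst, iha]

/-- the formulas below `k` and the `k`-ary term functions of the Lindenbaum algebra -/
lemma term_of_form (k : ℕ) (S : Set ((Fin k → Lin L hL) → Lin L hL))
    (h1 : ∀ i : Fin k, (fun v : Fin k → Lin L hL => v i) ∈ S)
    (h2 : (fun _ : Fin k → Lin L hL => (⊥ : Lin L hL)) ∈ S)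
    (h3 : ∀ g ∈ S, (fun v : Fin k → Lin L hL => (g v)ᶜ) ∈ S)
    (h4 : ∀ g ∈ S, ∀ h ∈ S, (fun v : Fin k → Lin L hL => g v ⊓ h v) ∈ S)
    (h5 : ∀ g ∈ S, (fun v : Fin k → Lin L hL => lbox (g v)) ∈ S) (a : Form) :
    (fun v : Fin k → Lin L hL => ev k v a) ∈ S := by
  induction a with
  | var n =>
    by_cases h : n < k
    · simpa [ev, h] using h1 ⟨n, h⟩
    · simpa [ev, h] using h2
  | bot => exact h2
  | imp a b iha ihb => exact h3 _ (h4 _ iha _ (h3 _ ihb))
  | box a iha => exact h5 _ iha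

lemma below_cj {k : ℕ} {a b : Form} (ha : a.Below k) (hb : b.Below k) : (cj a b).Below k :=
  ⟨⟨ha, ⟨hb, trivial⟩⟩, trivial⟩

/-- the set of `k`-ary term functions -/
def Terms (k : ℕ) : Set ((Fin k → Lin L hL) → Lin L hL) :=
  ⋂₀ {S : Set ((Fin k → Lin L hL) → Lin L hL) |
          (∀ i : Fin k, (fun v : Fin k → Lin L hL => v i) ∈ S) ∧
          (fun _ : Fin k → Lin L hL => (⊥ : Lin L hL)) ∈ S ∧
          (∀ g ∈ S, (fun v : Fin k → Lin L hL => (g v)ᶜ) ∈ S) ∧
          (∀ g ∈ S, ∀ h ∈ S, (fun v : Fin k → Lin L hL => g v ⊓ h v) ∈ S) ∧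
          (∀ g ∈ S, (fun v : Fin k → Lin L hL => lbox (g v)) ∈ S)}

lemma terms_sub (k : ℕ) : Terms (L := L) (hL := hL) k ⊆
    {g | ∃ a : Form, a.Below k ∧ g = fun v => ev k v a} := by
  intro g hg
  refine hg _ ⟨?_, ?_, ?_, ?_, ?_⟩
  · intro i
    refine ⟨.var i, i.2, ?_⟩
    funext v
    simp [ev]
  · exact ⟨.bot, trivial, rfl⟩
  · rintro g ⟨a, ha, rfl⟩
    refine ⟨ng a, ⟨ha, trivial⟩, ?_⟩
    funext v
    simp [ng, ev]
  · rintro g ⟨a, ha, rfl⟩ h ⟨b, hb, rfl⟩
    refine ⟨cj a b, below_cj ha hb, ?_⟩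
    funext v
    simp [cj, ng, ev]
  · rintro g ⟨a, ha, rfl⟩
    exact ⟨.box a, ha, rfl⟩

lemma terms_fin {k : ℕ} (h : Tabular L k) : (Terms (L := L) (hL := hL) k).Finite := by
  obtain ⟨F, hF, hk⟩ := h
  -- representatives with variables below `k`
  refine Set.Finite.subset (s := (fun c : Lin L hL =>
      (fun v : Fin k → Lin L hL =>
        (Classical.epsilon (fun d : Lin L hL => ∀ (s : ℕ → Form), (∀ i : Fin k, cl L hL (s i) = v i) →
          ∀ a : Form, a.Below k → cl L hL a = c → d = cl L hL (a.subst s))))) '' (cl L hL '' F))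
    ((hF.image _).image _) ?_
  intro g hg
  obtain ⟨a, ha, rfl⟩ := terms_sub k hg
  obtain ⟨ψ, hψ, hψe⟩ := hk a ha
  refine ⟨cl L hL ψ, ⟨ψ, hψ, rfl⟩, ?_⟩
  funext v
  have hex : ∃ d : Lin L hL, ∀ (s : ℕ → Form), (∀ i : Fin k, cl L hL (s i) = v i) →
          ∀ b : Form, b.Below k → cl L hL b = cl L hL ψ → d = cl L hL (b.subst s) := by
    refine ⟨ev k v a, ?_⟩
    intro s hs b hb hbψ
    have hv : v = fun i : Fin k => cl L hL (s i) := by
      funext i
      exact (hs i).symm
    rw [hv, ev_subst k s a ha]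
    have hab : LEquiv L a b := cl_eq.mp ((cl_eq.mpr hψe).trans hbψ.symm)
    exact cl_eq.mpr ⟨hL.subst s _ hab.1, hL.subst s _ hab.2⟩
  have hsp := Classical.epsilon_spec hex
  have hrep : ∀ i : Fin k, ∃ φ, cl L hL φ = v i := fun i => cl_surj (v i)
  choose s0 hs0 using hrep
  have h1 := hsp (fun n => if h : n < k then s0 ⟨n, h⟩ else .bot)
    (by
      intro i
      simp [hs0]) a ha (cl_eq.mpr hψe)
  have hv : v = fun i : Fin k => cl L hL ((fun n => if h : n < k then s0 ⟨n, h⟩ else Form.bot) i) := by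
    funext i
    simp [hs0]
  refine h1.trans ?_
  have h2 := ev_subst (L := L) (hL := hL) k (fun n => if h : n < k then s0 ⟨n, h⟩ else .bot) a ha
  rw [← hv] at h2
  exact h2.symm

lemma tab_of_fin {n : ℕ} (h : (Terms (L := L) (hL := hL) n).Finite) : Tabular L n := by
  have hfin : ((fun g : (Fin n → Lin L hL) → Lin L hL => g (fun i => cl L hL (.var i))) ''
      Terms (L := L) (hL := hL) n).Finite := h.image _
  refine ⟨(fun c : Lin L hL => (cl_surj c).choose) ''
    ((fun g : (Fin n → Lin L hL) → Lin L hL => g (fun i => cl L hL (.var i))) ''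
      Terms (L := L) (hL := hL) n), hfin.image _, ?_⟩
  intro a ha
  refine ⟨(cl_surj (cl L hL a)).choose, ⟨cl L hL a, ⟨fun v => ev n v a, ?_, ?_⟩, rfl⟩, ?_⟩
  · intro S hS
    exact term_of_form n S hS.1 hS.2.1 hS.2.2.1 hS.2.2.2.1 hS.2.2.2.2 a
  · have h2 := ev_subst (L := L) (hL := hL) n Form.var a ha
    rw [subst_var] at h2
    exact h2
  · exact cl_eq.mp (cl_surj (cl L hL a)).choose_spec.symm

end alg

/-- Every 8-tabular normal unimodal logic is locally tabular. -/
theorem result : ∀ L : Set Form, IsLogic L → Tabular L 8 → ∀ n : ℕ, Tabular L n := by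
  intro L hL h8 n
  exact tab_of_fin (hL := hL) (KTab.tabD lbox lbox_top lbox_inf (terms_fin (hL := hL) h8) n)

end Pool.Agent.Results.MP_6af323_lc.EightTabular
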