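import Mathlib
import Pool.Agent.KBT.Final

namespace Pool.Agent.Results.MP_6af323_lc.SymmetricTabularity

theorem result (B : Type) [BooleanAlgebra B] (f : B → B)
    (htop : f ⊤ = ⊤) (hinf : ∀ a b : B, f (a ⊓ b) = f a ⊓ f b)
    (hB : ∀ a : B, a ≤ f ((f aᶜ)ᶜ))
    (h2 : (⋂₀ {S : Set ((Fin 2 → B) → B) |
          (∀ i : Fin 2, (fun v : Fin 2 → B => v i) ∈ S) ∧
          (fun _ : Fin 2 → B => (⊥ : B)) ∈ S ∧
          (∀ g ∈ S, (fun v : Fin 2 → B => (g v)ᶜ) ∈ S) ∧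
          (∀ g ∈ S, ∀ h ∈ S, (fun v : Fin 2 → B => g v ⊓ h v) ∈ S) ∧
          (∀ g ∈ S, (fun v : Fin 2 → B => f (g v)) ∈ S)}).Finite) (n : ℕ) :
    (⋂₀ {S : Set ((Fin n → B) → B) |
          (∀ i : Fin n, (fun v : Fin n → B => v i) ∈ S) ∧
          (fun _ : Fin n → B => (⊥ : B)) ∈ S ∧
          (∀ g ∈ S, (fun v : Fin n → B => (g v)ᶜ) ∈ S) ∧
          (∀ g ∈ S, ∀ h ∈ S, (fun v : Fin n → B => g v ⊓ h v) ∈ S) ∧
          (∀ g ∈ S, (fun v : Fin n → B => f (g v)) ∈ S)}).Finite :=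
  KBT.kb_tabular f htop hinf hB h2 n

end Pool.Agent.Results.MP_6af323_lc.SymmetricTabularity
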